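import Pool.Agent.J4.H19.LQ.Fg
import Pool.Agent.J4.H19.LP.Tri

/-!
Finite generation of adjoint rings on models of covers which are branched along log canonical
hypersurfaces.
-/

set_option autoImplicit false
set_option linter.overlappingInstances false
set_option linter.unusedSectionVars false
set_option maxHeartbeats 400000

open FF MvPolynomial IntermediateField Pool.Agent.W603.LV Pool.Agent.W619.PQ
open Pool.Agent.W619.TW Pool.Agent.W602.GT Pool.Agent.TH122.AB Pool.Agent.TH756.PN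
open Pool.Agent.Y169.CH Pool.Agent.W602.Cov.G Pool.Agent.W602.Cov Pool.Agent.TH152.AC
open Pool.Agent.Y169.TH Pool.Agent.Y172 Pool.Agent.R887

namespace Pool.Agent.J4.H19.LC

section

variable {K : Type} [Field K] [Algebra ℂ K] {N n : ℕ} {y : Fin (N + 1) → K} {s : ℕ}

/-- the weight -/
def wt (ρ m : Fin s → ℕ) : ℕ := ∑ i, ρ i * m i

/-- the divisor -/
def dv (ρ : Fin s → ℕ) (Δ : Fin s → Place ℂ K → ℚ) (m : Fin s → ℕ) (P : Place ℂ K) : ℚ :=
  ∑ i, (ρ i * m i : ℚ) * Δ i P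

theorem wt_add (ρ m m' : Fin s → ℕ) : wt ρ (m + m') = wt ρ m + wt ρ m' := by
  unfold wt
  rw [← Finset.sum_add_distrib]
  exact Finset.sum_congr rfl fun i _ => by rw [Pi.add_apply, mul_add]

theorem dv_add (ρ : Fin s → ℕ) (Δ : Fin s → Place ℂ K → ℚ) (m m' : Fin s → ℕ) :
    dv ρ Δ (m + m') = dv ρ Δ m + dv ρ Δ m' := by
  funext P
  unfold dv
  rw [Pi.add_apply, ← Finset.sum_add_distrib]
  refine Finset.sum_congr rfl fun i _ => ?_
  rw [Pi.add_apply]
  push_cast
  ring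

theorem wt_zero (ρ : Fin s → ℕ) : wt ρ 0 = 0 := by
  unfold wt
  simp

theorem dv_zero (ρ : Fin s → ℕ) (Δ : Fin s → Place ℂ K → ℚ) : dv ρ Δ 0 = 0 := by
  funext P
  unfold dv
  simp

/-- sections of the divisors of the family -/
def IsSec (y : Fin (N + 1) → K) (n : ℕ) (ρ : Fin s → ℕ) (Δ : Fin s → Place ℂ K → ℚ)
    (m : Fin s → ℕ) (ω : (Fin n → Derivation ℂ K K) → K) : Prop :=
  IsSection y n (wt ρ m) (dv ρ Δ m) ω

variable {ρ : Fin s → ℕ} {Δ : Fin s → Place ℂ K → ℚ}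

theorem IsSec.mul' {m m' : Fin s → ℕ} {ω ω' : (Fin n → Derivation ℂ K K) → K}
    (h : IsSec y n ρ Δ m ω) (h' : IsSec y n ρ Δ m' ω') :
    IsSec y n ρ Δ (m + m') fun E => ω E * ω' E := by
  unfold IsSec
  rw [wt_add, dv_add]
  exact h.mul h'

theorem isSec_one : IsSec y n ρ Δ 0 fun _ : Fin n → Derivation ℂ K K => (1 : K) := by
  unfold IsSec
  rw [wt_zero, dv_zero]
  exact isSection_one

theorem isSec_prod {t : ℕ} {e : Fin t → Fin s → ℕ} {σ : Fin t → (Fin n → Derivation ℂ K K) → K}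
    (h : ∀ j, IsSec y n ρ Δ (e j) (σ j)) (c : Fin t → ℕ) :
    IsSec y n ρ Δ (∑ j, c j • e j) fun E => ∏ j, σ j E ^ c j := by
  classical
  have hpow : ∀ (m : Fin s → ℕ) (ω : (Fin n → Derivation ℂ K K) → K), IsSec y n ρ Δ m ω →
      ∀ k : ℕ, IsSec y n ρ Δ (k • m) fun E => ω E ^ k := by
    intro m ω h1 k
    induction k with
    | zero =>
      simp only [zero_smul, pow_zero]
      exact isSec_one
    | succ k ih =>
      rw [add_smul, one_smul]
      simp only [pow_succ]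
      exact ih.mul' h1
  induction t with
  | zero =>
    simp only [Finset.univ_eq_empty, Finset.sum_empty, Finset.prod_empty]
    exact isSec_one
  | succ t ih =>
    have h1 := (hpow _ _ (h 0) (c 0)).mul' (ih (fun j => h j.succ) fun j => c j.succ)
    simp only [Fin.sum_univ_succ, Fin.prod_univ_succ]
    exact h1

/-- evaluation at a frame -/
def evF (D : Fin n → Derivation ℂ K K) : ((Fin n → Derivation ℂ K K) → K) →ₗ[ℂ] K where
  toFun ω := ω D
  map_add' _ _ := rfl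
  map_smul' _ _ := rfl

/-- the values of the sections -/
noncomputable def secV (y : Fin (N + 1) → K) (ρ : Fin s → ℕ) (Δ : Fin s → Place ℂ K → ℚ)
    (D : Fin n → Derivation ℂ K K) (m : Fin s →₀ ℕ) : Submodule ℂ K :=
  (secSub y n (wt ρ m) (dv ρ Δ m)).map (evF D)

theorem mem_secV {D : Fin n → Derivation ℂ K K} {m : Fin s →₀ ℕ} {f : K} :
    f ∈ secV y ρ Δ D m ↔ ∃ ω, IsSec y n ρ Δ m ω ∧ ω D = f := Iff.rfl

/-- the ring of the values -/
noncomputable def adjR (y : Fin (N + 1) → K) (ρ : Fin s → ℕ) (Δ : Fin s → Place ℂ K → ℚ)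
    (D : Fin n → Derivation ℂ K K) : Subalgebra ℂ (MvPolynomial (Fin s) K) where
  carrier := {p | ∀ m, coeff m p ∈ secV y ρ Δ D m}
  add_mem' := by
    intro p q hp hq m
    rw [coeff_add]
    exact add_mem (hp m) (hq m)
  mul_mem' := by
    classical
    intro p q hp hq m
    rw [coeff_mul]
    refine sum_mem fun z hz => ?_
    rw [Finset.HasAntidiagonal.mem_antidiagonal] at hz
    obtain ⟨ω, h1, h2⟩ := mem_secV.1 (hp z.1)
    obtain ⟨ω', h3, h4⟩ := mem_secV.1 (hq z.2)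
    rw [mem_secV]
    refine ⟨fun E => ω E * ω' E, ?_, ?_⟩
    · rw [← hz, Finsupp.coe_add]
      exact h1.mul' h3
    · change ω D * ω' D = _
      rw [h2, h4]
  algebraMap_mem' := by
    classical
    intro c m
    rw [MvPolynomial.algebraMap_apply, coeff_C]
    split_ifs with h
    · rw [← h, mem_secV]
      refine ⟨c • fun _ => 1, ?_, ?_⟩
      · have h1 : IsSec y n ρ Δ 0 fun _ : Fin n → Derivation ℂ K K => (1 : K) := isSec_one
        exact (secSub y n _ _).smul_mem c h1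
      · change c • (1 : K) = _
        rw [Algebra.smul_def, mul_one]
    · exact zero_mem _

/-- **From the algebra of the values to the sections.** -/
theorem gens_of_fg {D : Fin n → Derivation ℂ K K} (hD : IsFrame D) (hfg : (adjR y ρ Δ D).FG) :
    ∃ (t : ℕ) (e : Fin t → Fin s → ℕ) (σ : Fin t → (Fin n → Derivation ℂ K K) → K),
      (∀ j, IsSec y n ρ Δ (e j) (σ j)) ∧ ∀ m ω, IsSec y n ρ Δ m ω →
        ω ∈ Submodule.span ℂ {τ | ∃ c : Fin t → ℕ, ∑ j, c j • e j = m ∧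
          τ = fun E => ∏ j, σ j E ^ c j} := by
  classical
  obtain ⟨t, e, g, hg, hspan⟩ := exists_homog (V := secV y ρ Δ D) (R := adjR y ρ Δ D)
    (fun p => Iff.rfl) hfg
  choose σ hσ hσD using fun j => mem_secV.1 (hg j)
  refine ⟨t, fun j => e j, σ, hσ, fun m ω hω => ?_⟩
  obtain ⟨m', hm'⟩ : ∃ m' : Fin s →₀ ℕ, m' = Finsupp.equivFunOnFinite.symm m := ⟨_, rfl⟩
  have hmm : (⇑m' : Fin s → ℕ) = m := by
    rw [hm']
    rfl
  have h1 := hspan m' (ω D) (mem_secV.2 ⟨ω, by rw [hmm]; exact hω, rfl⟩)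
  have h2 : ∃ τ ∈ Submodule.span ℂ {τ | ∃ c : Fin t → ℕ, ∑ j, c j • (⇑(e j) : Fin s → ℕ) = m ∧
      τ = fun E => ∏ j, σ j E ^ c j}, IsPluri (wt ρ m) τ ∧ τ D = ω D := by
    refine Submodule.span_induction (p := fun x _ => ∃ τ ∈ Submodule.span ℂ {τ | ∃ c : Fin t → ℕ,
      ∑ j, c j • (⇑(e j) : Fin s → ℕ) = m ∧ τ = fun E => ∏ j, σ j E ^ c j},
      IsPluri (wt ρ m) τ ∧ τ D = x) ?_ ?_ ?_ ?_ h1
    · rintro _ ⟨c, hc, rfl⟩
      have hc' : ∑ j, c j • (⇑(e j) : Fin s → ℕ) = m := by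
        rw [← hmm, ← hc, Finsupp.coe_finsetSum]
        rfl
      refine ⟨fun E => ∏ j, σ j E ^ c j, Submodule.subset_span ⟨c, hc', rfl⟩, ?_, ?_⟩
      · have h3 := (isSec_prod hσ c).1
        rw [hc'] at h3
        exact h3
      · change ∏ j, σ j D ^ c j = _
        exact Finset.prod_congr rfl fun j _ => by rw [hσD]
    · exact ⟨0, zero_mem _, fun A E => by simp, rfl⟩
    · rintro a b - - ⟨τ, h3, h4, h5⟩ ⟨τ', h6, h7, h8⟩
      refine ⟨τ + τ', add_mem h3 h6, fun A E => ?_, ?_⟩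
      · change τ _ + τ' _ = _ * (τ E + τ' E)
        rw [h4, h7, mul_add]
      · change τ D + τ' D = _
        rw [h5, h8]
    · rintro a b - ⟨τ, h3, h4, h5⟩
      refine ⟨a • τ, Submodule.smul_mem _ a h3, fun A E => ?_, ?_⟩
      · change a • τ _ = _ * (a • τ E)
        rw [h4, mul_smul_comm]
      · change a • τ D = _
        rw [h5]
  obtain ⟨τ, h3, h4, h5⟩ := h2
  have h6 : ω - τ = 0 := by
    refine pluri_zero hD (m := wt ρ m) (fun A E => ?_) ?_
    · change ω _ - τ _ = _ * (ω E - τ E)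
      rw [hω.1, h4, mul_sub]
    · change ω D - τ D = 0
      rw [h5, sub_self]
  rw [sub_eq_zero.1 h6]
  exact h3

/-- the order of the sections at the places with log discrepancies -/
theorem sec_ord (hy : NormalModel y) (hn : Algebra.trdeg ℂ K = n) {x : Fin n → K}
    (hx : IsTranscendenceBasis ℂ x) {D : Fin n → Derivation ℂ K K}
    (hD : ∀ i j, D i (x j) = if i = j then 1 else 0) {r : ℕ} (hr : 0 < r) {Q : Place ℂ K}
    (hQ : Divisorial n Q) {A : Fin s → ℚ} (hA : ∀ i, HasLD y n (Δ i) r Q (A i)) {m : Fin s → ℕ}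
    {ω : (Fin n → Derivation ℂ K K) → K} (hω : IsSec y n ρ Δ m ω) :
    OrdGe Q ω (∑ i, (ρ i * m i : ℚ) * (A i - 1)) := by
  classical
  have hess := hy.ess
  obtain ⟨hfr, ⟨c, hc⟩, hne⟩ := exists_cc hy hn hx hD
  have hdiv : ∀ P, IsPrimeDivisor y P → Divisorial n P := fun P hP => hP.divisorial hy hn
  choose η hη hηP hηQ using hA
  have hηD : ∀ i, η i D ≠ 0 := fun i => hne r (η i) (hη i) Q _ (hηQ i)
  by_cases hωD : ω D = 0
  · intro E _
    left
    rw [pluri_zero hfr hω.1 hωD]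
    rfl
  have hr' : (0 : ℚ) < r := by exact_mod_cast hr
  have hprod : ∏ i, η i D ^ (ρ i * m i) ≠ 0 :=
    Finset.prod_ne_zero_iff.2 fun i _ => pow_ne_zero _ (hηD i)
  have hord : ∀ P : Place ℂ K, P.ord (ω D ^ r / ∏ i, η i D ^ (ρ i * m i)) =
      r * P.ord (ω D) - ∑ i, ((ρ i * m i : ℕ) : ℤ) * P.ord (η i D) := by
    intro P
    rw [P.ord_div (pow_ne_zero _ hωD) hprod, P.ord_pow, ord_prod' P Finset.univ _ fun i _ =>
      pow_ne_zero _ (hηD i)]
    congr 1
    exact Finset.sum_congr rfl fun i _ => P.ord_pow _ _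
  have hwt : ((wt ρ m : ℕ) : ℚ) = ∑ i, (ρ i * m i : ℚ) := by
    unfold wt
    push_cast
    rfl
  have hf : ω D ^ r / ∏ i, η i D ^ (ρ i * m i) ∈ localRing y Q := by
    refine mem_localRing_of_reg hy fun P hP hPt => ?_
    right
    have h1 := ((hc P (hdiv P hP) _ ω hω.1 _).1.1 (hω.2 P hP)).resolve_left hωD
    have h8 : (0 : ℚ) ≤ ((r * P.ord (ω D) - ∑ i, ((ρ i * m i : ℕ) : ℤ) * P.ord (η i D) : ℤ) : ℚ) := by
      push_cast
      have h2 : ∑ i, (ρ i * m i : ℚ) * (P.ord (η i D) : ℚ) =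
          ∑ i, (-(r * ((ρ i * m i : ℚ) * Δ i P)) - r * c P * (ρ i * m i : ℚ)) := by
        refine Finset.sum_congr rfl fun i _ => ?_
        have h3 := ((hc P (hdiv P hP) _ (η i) (hη i) _).2 (hηD i)).1 (hηP i P hP hPt)
        have h4 : (P.ord (η i D) : ℚ) = -(r * Δ i P) - r * c P := by linarith
        rw [h4]
        ring
      rw [h2, Finset.sum_sub_distrib, Finset.sum_neg_distrib, ← Finset.mul_sum, ← Finset.mul_sum,
        ← hwt]
      change 0 ≤ (r : ℚ) * P.ord (ω D) - (-(r * dv ρ Δ m P) - r * c P * wt ρ m)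
      have h5 := mul_le_mul_of_nonneg_left h1 hr'.le
      linarith
    rw [hord]
    exact_mod_cast h8
  have h1 := localRing_reg hf
  rw [Q.reg_iff (div_ne_zero (pow_ne_zero _ hωD) hprod), hord] at h1
  refine (hc Q hQ _ ω hω.1 _).1.2 (Or.inr ?_)
  have h3 : (0 : ℚ) ≤ ((r * Q.ord (ω D) - ∑ i, ((ρ i * m i : ℕ) : ℤ) * Q.ord (η i D) : ℤ) : ℚ) := by
    exact_mod_cast h1
  push_cast at h3
  have h2 : ∑ i, (ρ i * m i : ℚ) * (Q.ord (η i D) : ℚ) =
      ∑ i, (r * ((ρ i * m i : ℚ) * (A i - 1)) - r * c Q * (ρ i * m i : ℚ)) := by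
    refine Finset.sum_congr rfl fun i _ => ?_
    have h4 := ((hc Q hQ _ (η i) (hη i) _).2 (hηD i)).1 (hηQ i)
    have h5 : (Q.ord (η i D) : ℚ) = r * (A i - 1) - r * c Q := by linarith
    rw [h5]
    ring
  rw [h2, Finset.sum_sub_distrib, ← Finset.mul_sum, ← Finset.mul_sum, ← hwt] at h3
  refine le_of_mul_le_mul_left ?_ hr'
  linarith

end

namespace Cv

variable {d : ℕ} {Φ : Arr (d + 1)} {K : Type} [Field K] [Algebra ℂ K] {R : ℕ} (C : Cv Φ K R)
  {N : ℕ} {y : Fin (N + 1) → K} {s : ℕ} {ρ : Fin s → ℕ} {Δ A : Fin s → Place ℂ K → ℚ}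
  {b : Fin s → (Fin (d + 2) → ℕ) → ℚ} {W : Set (Place ℂ K)} {S0 : Finset (Fin (d + 2) → ℕ)}

/-- **Finite generation of the adjoint ring, on a model.** -/
theorem fg_adj (hy : NormalModel y) (hn : Algebra.trdeg ℂ K = ((d + 1 : ℕ) : Cardinal))
    (hρ : ∀ i, 0 < ρ i) (hb0 : ∀ i, b i 0 = 0) (hb1 : ∀ i v, b i v ≤ 1)
    (hbg : ∀ i (g : ℕ) (v : Fin (d + 2) → ℕ), 1 ≤ g → Adm C.M C.a v →
      1 - b i (fun k => g * v k) ≤ g * (1 - b i v))
    (hbP : ∀ i P, IsPrimeDivisor y P → P ∈ C.LPl → C.vec P ≠ 0 → b i (C.vec P) ≤ Δ i P)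
    (h3 : ∀ i P, IsPrimeDivisor y P → (P ∉ C.LPl ∨ C.vec P = 0) → 0 ≤ Δ i P)
    {r : ℕ} (hr : 0 < r)
    (hA : ∀ i, ∀ Q ∈ W, Divisorial (d + 1) Q → HasLD y (d + 1) (Δ i) r Q (A i Q))
    (hbQ : ∀ i, ∀ Q ∈ W, Divisorial (d + 1) Q → 1 - A i Q ≤ b i (C.vec Q))
    (hS : C.TstM b S0) {T : {v // v ∈ S0} → C.Dir} (hT : ∀ s, (T s).v = s.1)
    (hW : ∀ P ∈ C.LPl, C.Need T P → P ∈ W) :
    ∃ (t : ℕ) (e : Fin t → Fin s → ℕ) (σ : Fin t → (Fin (d + 1) → Derivation ℂ K K) → K),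
      (∀ j, IsSec y (d + 1) ρ Δ (e j) (σ j)) ∧ ∀ m ω, IsSec y (d + 1) ρ Δ m ω →
        ω ∈ Submodule.span ℂ {τ | ∃ c : Fin t → ℕ, ∑ j, c j • e j = m ∧
          τ = fun E => ∏ j, σ j E ^ c j} := by
  classical
  obtain ⟨D0, hD0⟩ := exists_dual C.u_bas
  have hD : ∀ i j, D0 i (C.u j) = if i = j then 1 else 0 := by
    intro i j
    have h1 := congrFun (congrFun hD0 i) j
    rw [Matrix.of_apply, Matrix.one_apply] at h1
    exact h1
  have hfr : IsFrame D0 := fun F => ⟨fun j => F (C.u j),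
    (Pool.Agent.W73.PG.PULL.expand C.u C.u_bas D0 hD F).symm⟩
  have hdiv : ∀ P, IsPrimeDivisor y P → Divisorial (d + 1) P := fun P hP => hP.divisorial hy hn
  have hbw0 : bw D0 C.x = 1 := by
    rw [Pool.Agent.W930.CG.bw_one D0 C.x C.hx0]
    change (Matrix.of fun i j => D0 i (C.u j)).det = 1
    have h1 : (Matrix.of fun i j => D0 i (C.u j)) = (1 : Matrix (Fin (d + 1)) (Fin (d + 1)) K) := by
      ext i j
      rw [Matrix.of_apply, Matrix.one_apply, hD]
    rw [h1, Matrix.det_one]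
  refine gens_of_fg hfr ?_
  refine C.fg_main (δ := fun i Q => b i (C.vec Q)) hρ (fun i P _ α v hdat => ?_) hb0 hb1 hbg hS hT hW
    hD (V := secV y ρ Δ D0) (fun p => Iff.rfl) (fun m f hf => ?_) fun m u hu1 hu2 => ?_
  · dsimp only
    rw [C.vec_eq hdat]
    ring
  · obtain ⟨ω, hω, hωf⟩ := mem_secV.1 hf
    refine ⟨ω, hωf, hω.1, fun Q hQW hQ E hE => ?_⟩
    have h1 := sec_ord hy hn C.u_bas hD hr hQ (fun i => hA i Q hQW hQ) hω E hE
    refine h1.imp id fun h2 => ⟨1, by simp, one_ne_zero, ?_⟩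
    rw [Q.ord_one]
    have hwt : ((∑ i, ρ i * m i : ℕ) : ℚ) = ∑ i, (ρ i * m i : ℚ) := by
      push_cast
      rfl
    have h4 : -(((∑ i, ρ i * m i : ℕ) : ℚ) * ((∑ i, (ρ i * m i : ℚ) * b i (C.vec Q)) /
        (∑ i, ρ i * m i : ℕ))) ≤ ∑ i, (ρ i * m i : ℚ) * (A i Q - 1) := by
      have h5 : ∀ i, -((ρ i * m i : ℚ) * b i (C.vec Q)) ≤ (ρ i * m i : ℚ) * (A i Q - 1) := by
        intro i
        have h6 := mul_le_mul_of_nonneg_left (hbQ i Q hQW hQ)
          (show (0 : ℚ) ≤ ρ i * m i by positivity)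
        linarith
      have h7 : -(∑ i, (ρ i * m i : ℚ) * b i (C.vec Q)) ≤ ∑ i, (ρ i * m i : ℚ) * (A i Q - 1) := by
        rw [← Finset.sum_neg_distrib]
        exact Finset.sum_le_sum fun i _ => h5 i
      by_cases h0 : ((∑ i, ρ i * m i : ℕ) : ℚ) = 0
      · have h8 : ∀ i ∈ Finset.univ, (ρ i * m i : ℚ) = 0 := by
          rw [hwt] at h0
          exact (Finset.sum_eq_zero_iff_of_nonneg fun i _ => by positivity).1 h0
        rw [h0, zero_mul, neg_zero]
        exact (Finset.sum_eq_zero fun i hi => by rw [h8 i hi, zero_mul]).ge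
      · rw [mul_div_cancel₀ _ h0]
        exact h7
    have h5 := h4.trans h2
    have h6 : ((-(((∑ i, ρ i * m i : ℕ) : ℚ) * ((∑ i, (ρ i * m i : ℚ) * b i (C.vec Q)) /
        (∑ i, ρ i * m i : ℕ))) : ℚ) : ℝ) ≤ ((Q.ord (ω E) : ℚ) : ℝ) := by exact_mod_cast h5
    push_cast at h6 ⊢
    linarith
  · rw [mem_secV]
    obtain ⟨M, hM⟩ : ∃ M : ℕ, M = ∑ i, ρ i * m i := ⟨_, rfl⟩
    have hMq : (M : ℚ) = ∑ i, (ρ i * m i : ℚ) := by
      rw [hM]
      push_cast
      rfl
    rw [← hM] at hu1 ⊢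
    have hval : C.mon M u D0 = C.Ex M u := by
      unfold mon
      rw [hbw0, one_pow, one_mul]
    refine ⟨C.mon M u, ⟨?_, fun P hP => ?_⟩, hval⟩
    · have h1 : wt ρ m = M := hM.symm
      rw [h1]
      exact C.mon_pluri M u
    -- the exponents are not negative
    have hper : (0 : ℚ) < per C.M := by exact_mod_cast per_pos C.hM
    have hu0 : ∀ k, (0 : ℚ) ≤ u k := by
      intro k
      have h1 := hu2 _ (hS.unit k)
      have h2 : 0 ≤ ∑ i, (ρ i * m i : ℚ) * (1 - b i fun i => if i = k then per C.M else 0) :=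
        Finset.sum_nonneg fun i _ => mul_nonneg (by positivity) (by linarith [hb1 i fun i => if i = k then per C.M else 0])
      have h3 := h2.trans h1
      rw [Finset.sum_eq_single k] at h3
      · rw [if_pos rfl] at h3
        exact nonneg_of_mul_nonneg_right h3 hper
      · intro i _ hi
        rw [if_neg hi, Nat.cast_zero, zero_mul]
      · intro h
        exact absurd (Finset.mem_univ _) h
    have hall : ∀ v, Adm C.M C.a v →
        ∑ i, (ρ i * m i : ℚ) * (1 - b i v) ≤ ∑ k, (v k : ℚ) * u k := by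
      intro v hv
      obtain ⟨v', hv', hle, hb⟩ := hS.suff v hv
      calc ∑ i, (ρ i * m i : ℚ) * (1 - b i v) ≤ ∑ i, (ρ i * m i : ℚ) * (1 - b i v') := by
            refine Finset.sum_le_sum fun i _ => mul_le_mul_of_nonneg_left ?_ (by positivity)
            linarith [hb i]
        _ ≤ ∑ k, (v' k : ℚ) * u k := hu2 v' hv'
        _ ≤ ∑ k, (v k : ℚ) * u k := by
            refine Finset.sum_le_sum fun k _ => mul_le_mul_of_nonneg_right ?_ (hu0 k)
            exact_mod_cast hle k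
    rcases Nat.eq_zero_or_pos M with h0 | h0
    · -- the constants
      have hz : ∀ i ∈ Finset.univ, (ρ i * m i : ℚ) = 0 := by
        rw [h0, Nat.cast_zero] at hMq
        exact (Finset.sum_eq_zero_iff_of_nonneg fun i _ => by positivity).1 hMq.symm
      have hdv : dv ρ Δ m P = 0 := Finset.sum_eq_zero fun i hi => by rw [hz i hi, zero_mul]
      have hu : u = 0 := by
        rw [h0, Nat.cast_zero, mul_zero] at hu1
        have h1 : ∀ k ∈ Finset.univ, (Φ.dF k : ℤ) * u k = 0 := by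
          refine (Finset.sum_eq_zero_iff_of_nonneg fun k _ => mul_nonneg (by positivity) ?_).1 hu1
          exact_mod_cast hu0 k
        funext k
        have h2 : (Φ.dF k : ℤ) ≠ 0 := by exact_mod_cast (Φ.hd k).ne'
        exact (mul_eq_zero.1 (h1 k (Finset.mem_univ k))).resolve_left h2
      rw [hdv, hu, h0]
      intro E _
      right
      have h1 : C.mon 0 0 E = 1 := by
        unfold mon Ex
        simp
      rw [h1, P.ord_one]
      simp
    · have hMpos : (0 : ℚ) < M := by exact_mod_cast h0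
      obtain ⟨bm, hbm⟩ : ∃ bm : (Fin (d + 2) → ℕ) → ℚ,
        bm = fun v => (∑ i, (ρ i * m i : ℚ) * b i v) / M := ⟨_, rfl⟩
      have hMb : ∀ v, (M : ℚ) * (1 - bm v) = ∑ i, (ρ i * m i : ℚ) * (1 - b i v) := by
        intro v
        rw [hbm]
        dsimp only
        rw [mul_sub, mul_one, mul_div_cancel₀ _ hMpos.ne', hMq, ← Finset.sum_sub_distrib]
        exact Finset.sum_congr rfl fun i _ => by ring
      have hp : (fun k => (u k : ℚ) / M) ∈ PiB C.M C.a Φ.dF bm 0 := by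
        refine ⟨?_, fun v hv => ?_⟩
        · have h1 : ∑ k, (Φ.dF k : ℚ) * ((u k : ℚ) / M) = (∑ k, (Φ.dF k : ℚ) * u k) / M := by
            rw [Finset.sum_div]
            exact Finset.sum_congr rfl fun k _ => by ring
          have h2 : ∑ k, (Φ.dF k : ℚ) * u k = (∑ k, (Φ.dF k : ℚ) - (d + 2)) * M := by
            have h4 : ((∑ k, (Φ.dF k : ℤ) * u k : ℤ) : ℚ) =
                (((∑ k, (Φ.dF k : ℤ) - (d + 2)) * M : ℤ) : ℚ) := by rw [hu1]
            push_cast at h4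
            exact h4
          rw [h1, h2, mul_div_assoc, div_self hMpos.ne']
          push_cast
          ring
        · have h1 : ∑ k, (v k : ℚ) * ((u k : ℚ) / M) = (∑ k, (v k : ℚ) * u k) / M := by
            rw [Finset.sum_div]
            exact Finset.sum_congr rfl fun k _ => by ring
          rw [h1, le_div_iff₀ hMpos, mul_comm, hMb]
          exact hall v hv
      have h1 := C.mon_mod (y := y) (Δ := fun P => (∑ i, (ρ i * m i : ℚ) * Δ i P) / M) (b := bm)
        (fun P hP hPL hv => by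
          rw [hbm]
          exact div_le_div_of_nonneg_right (Finset.sum_le_sum fun i _ =>
            mul_le_mul_of_nonneg_left (hbP i P hP hPL hv) (by positivity)) hMpos.le)
        (fun v => by
          have h2 := hMb v
          have h4 : 0 ≤ ∑ i, (ρ i * m i : ℚ) * (1 - b i v) := Finset.sum_nonneg fun i _ =>
            mul_nonneg (by positivity) (by linarith [hb1 i v])
          rw [← h2] at h4
          have h5 := nonneg_of_mul_nonneg_right h4 hMpos
          linarith)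
        (fun P hP hPc => div_nonneg (Finset.sum_nonneg fun i _ =>
          mul_nonneg (by positivity) (h3 i P hP hPc)) hMpos.le) hdiv hp (T := M) (w := u)
        (fun k => by rw [mul_div_cancel₀ _ hMpos.ne']) hP
      have h2 : (M : ℚ) * ((∑ i, (ρ i * m i : ℚ) * Δ i P) / M) = dv ρ Δ m P := by
        rw [mul_div_cancel₀ _ hMpos.ne']
        rfl
      rw [← h2]
      exact h1

end Cv

end Pool.Agent.J4.H19.LC
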