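import Mathlib

/-!
Finitely generated subalgebras, and homogeneous generators of multigraded algebras.
-/

set_option autoImplicit false

open MvPolynomial

namespace Pool.Agent.J4.H19.LC

/-- **A subalgebra which is, up to a denominator, in a finite module over a finitely generated
subalgebra.** -/
theorem fg_of_module {k B : Type} [Field k] [CommRing B] [Algebra k B] {A R : Subalgebra k B}
    (hA : A.FG) (hAR : A ≤ R) {q : B} (hq : ∀ x : B, x * q = 0 → x = 0) (T : Finset B)
    (hT : ∀ x ∈ R, x * q ∈ Submodule.span A (T : Set B)) : R.FG := by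
  classical
  have hft : Algebra.FiniteType k A := (Subalgebra.fg_iff_finiteType A).1 hA
  have hnA : IsNoetherianRing A := Algebra.FiniteType.isNoetherianRing k A
  have hN : IsNoetherian A (Submodule.span A (T : Set B)) :=
    isNoetherian_span_of_finite A T.finite_toSet
  obtain ⟨M, hM⟩ : ∃ M : Submodule A B, M = Submodule.span A (R : Set B) := ⟨_, rfl⟩
  have hMR : ∀ x ∈ M, x ∈ R := by
    intro x hx
    rw [hM] at hx
    induction hx using Submodule.span_induction with
    | mem x hx => exact hx
    | zero => exact zero_mem R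
    | add x y _ _ hx hy => exact add_mem hx hy
    | smul a x _ hx => exact mul_mem (hAR a.2) hx
  let f : M →ₗ[A] Submodule.span A (T : Set B) :=
    { toFun := fun x => ⟨(x : B) * q, hT _ (hMR _ x.2)⟩
      map_add' := fun x y => Subtype.ext (add_mul _ _ _)
      map_smul' := fun a x => Subtype.ext (smul_mul_assoc _ _ _) }
  have hf : Function.Injective f := by
    rw [injective_iff_map_eq_zero]
    intro x hx
    exact Subtype.ext (hq _ (congrArg Subtype.val hx))
  have hMn : IsNoetherian A M := isNoetherian_of_injective f hf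
  have hfg : M.FG := by
    rw [← Submodule.fg_top]
    exact hMn.noetherian ⊤
  obtain ⟨t, ht⟩ := hfg
  obtain ⟨g, hg⟩ := hA
  refine ⟨g ∪ t, le_antisymm ?_ ?_⟩
  · rw [Algebra.adjoin_le_iff]
    intro x hx
    rw [Finset.coe_union] at hx
    rcases hx with hx | hx
    · refine hAR ?_
      rw [← hg]
      exact Algebra.subset_adjoin hx
    · refine hMR x ?_
      rw [← ht]
      exact Submodule.subset_span hx
  · intro x hx
    have h1 : x ∈ M := by
      rw [hM]
      exact Submodule.subset_span hx
    rw [← ht] at h1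
    have h2 : ∀ a ∈ A, a ∈ Algebra.adjoin k ((g ∪ t : Finset B) : Set B) := by
      intro a ha
      rw [← hg] at ha
      refine Algebra.adjoin_mono ?_ ha
      rw [Finset.coe_union]
      exact Set.subset_union_left
    clear hx
    induction h1 using Submodule.span_induction with
    | mem x hx =>
      refine Algebra.subset_adjoin ?_
      rw [Finset.coe_union]
      exact Or.inr hx
    | zero => exact zero_mem _
    | add x y _ _ hx hy => exact add_mem hx hy
    | smul a x _ hx => exact mul_mem (h2 a a.2) hx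

/-- **Homogeneous generators.** -/
theorem exists_homog {k K : Type} [Field k] [Field K] [Algebra k K] {s : ℕ}
    {V : (Fin s →₀ ℕ) → Submodule k K} {R : Subalgebra k (MvPolynomial (Fin s) K)}
    (hR : ∀ p, p ∈ R ↔ ∀ m, coeff m p ∈ V m) (hfg : R.FG) :
    ∃ (r : ℕ) (e : Fin r → (Fin s →₀ ℕ)) (g : Fin r → K), (∀ j, g j ∈ V (e j)) ∧
      ∀ m, ∀ f ∈ V m, f ∈ Submodule.span k
        {z | ∃ c : Fin r → ℕ, ∑ j, c j • e j = m ∧ z = ∏ j, g j ^ c j} := by
  classical
  obtain ⟨t, ht⟩ := hfg
  obtain ⟨H, hH⟩ : ∃ H : Finset ((Fin s →₀ ℕ) × K),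
    H = t.biUnion fun p => p.support.image fun m => (m, coeff m p) := ⟨_, rfl⟩
  have hHV : ∀ z ∈ H, z.2 ∈ V z.1 := by
    intro z hz
    rw [hH, Finset.mem_biUnion] at hz
    obtain ⟨p, hp, hz⟩ := hz
    obtain ⟨m, -, rfl⟩ := Finset.mem_image.1 hz
    have h1 : p ∈ R := by
      rw [← ht]
      exact Algebra.subset_adjoin hp
    exact (hR p).1 h1 m
  obtain ⟨eq⟩ : Nonempty (Fin H.card ≃ {z // z ∈ H}) := ⟨H.equivFin.symm⟩
  obtain ⟨e, he⟩ : ∃ e : Fin H.card → (Fin s →₀ ℕ), e = fun j => (eq j).1.1 := ⟨_, rfl⟩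
  obtain ⟨g, hg⟩ : ∃ g : Fin H.card → K, g = fun j => (eq j).1.2 := ⟨_, rfl⟩
  refine ⟨H.card, e, g, fun j => ?_, fun m f hf => ?_⟩
  · rw [he, hg]
    exact hHV _ (eq j).2
  -- the monomials
  obtain ⟨P, hP⟩ : ∃ P : Set (MvPolynomial (Fin s) K), P = Set.range fun j => monomial (e j) (g j) :=
    ⟨_, rfl⟩
  have h1 : R ≤ Algebra.adjoin k P := by
    rw [← ht, Algebra.adjoin_le_iff]
    intro p hp
    change p ∈ Algebra.adjoin k P
    rw [p.as_sum]
    refine sum_mem fun m hm => Algebra.subset_adjoin ?_
    have h2 : (m, coeff m p) ∈ H := by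
      rw [hH, Finset.mem_biUnion]
      exact ⟨p, hp, Finset.mem_image_of_mem _ hm⟩
    obtain ⟨j, hj⟩ := eq.surjective ⟨_, h2⟩
    rw [hP]
    refine ⟨j, ?_⟩
    change monomial (e j) (g j) = _
    rw [he, hg]
    dsimp only
    rw [hj]
  have h2 : monomial m f ∈ R := by
    rw [hR]
    intro m'
    rw [coeff_monomial]
    split_ifs with h
    · rw [← h]
      exact hf
    · exact zero_mem _
  have h3 := h1 h2
  rw [← Subalgebra.mem_toSubmodule, Algebra.adjoin_eq_span] at h3
  have h4 : ∀ y ∈ Submonoid.closure P, ∃ c : Fin H.card → ℕ,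
      y = monomial (∑ j, c j • e j) (∏ j, g j ^ c j) := by
    intro y hy
    induction hy using Submonoid.closure_induction with
    | mem x hx =>
      rw [hP] at hx
      obtain ⟨j, rfl⟩ := hx
      refine ⟨Pi.single j 1, ?_⟩
      have h5 : ∑ i, (Pi.single j 1 : Fin H.card → ℕ) i • e i = e j := by
        rw [Finset.sum_eq_single j]
        · rw [Pi.single_eq_same, one_smul]
        · intro i _ hi
          rw [Pi.single_eq_of_ne hi, zero_smul]
        · intro h
          exact absurd (Finset.mem_univ _) h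
      have h6 : ∏ i, g i ^ (Pi.single j 1 : Fin H.card → ℕ) i = g j := by
        rw [Finset.prod_eq_single j]
        · rw [Pi.single_eq_same, pow_one]
        · intro i _ hi
          rw [Pi.single_eq_of_ne hi, pow_zero]
        · intro h
          exact absurd (Finset.mem_univ _) h
      rw [h5, h6]
    | one =>
      refine ⟨0, ?_⟩
      simp
    | mul x y _ _ hx hy =>
      obtain ⟨c, rfl⟩ := hx
      obtain ⟨c', rfl⟩ := hy
      refine ⟨c + c', ?_⟩
      rw [monomial_mul]
      congr 1
      · rw [← Finset.sum_add_distrib]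
        exact congrArg _ (Finset.sum_congr rfl fun j _ => (add_smul _ _ _).symm)
      · rw [← Finset.prod_mul_distrib]
        exact Finset.prod_congr rfl fun j _ => (pow_add _ _ _).symm
  let lc : MvPolynomial (Fin s) K →ₗ[k] K :=
    { toFun := fun p => coeff m p
      map_add' := fun p q => coeff_add m p q
      map_smul' := fun c p => by
        rw [RingHom.id_apply]
        exact coeff_smul m c p }
  have h5 := Submodule.mem_map_of_mem (f := lc) h3
  rw [Submodule.map_span] at h5
  have h6 : lc (monomial m f) = f := coeff_monomial m m f |>.trans (if_pos rfl)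
  rw [h6] at h5
  refine Submodule.span_induction (p := fun x _ => x ∈ Submodule.span k
    {z | ∃ c : Fin H.card → ℕ, ∑ j, c j • e j = m ∧ z = ∏ j, g j ^ c j}) ?_ (zero_mem _)
    (fun x y _ _ hx hy => add_mem hx hy) (fun c x _ hx => Submodule.smul_mem _ c hx) h5
  rintro _ ⟨y, hy, rfl⟩
  obtain ⟨c, rfl⟩ := h4 y hy
  change coeff m (monomial _ _) ∈ _
  rw [coeff_monomial]
  split_ifs with h
  · exact Submodule.subset_span ⟨c, h, rfl⟩
  · exact zero_mem _

end Pool.Agent.J4.H19.LC
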