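import Mathlib

/-!
The lattice points of rational polyhedral cones: finite generation, and the lattice points near the
cone.
-/

set_option autoImplicit false

namespace Pool.Agent.J4.H19.LC

/-- finitely many minimal elements -/
theorem exists_min {ι : Type} [Finite ι] (X : Set (ι → ℕ)) :
    ∃ T : Finset (ι → ℕ), (∀ t ∈ T, t ∈ X) ∧ ∀ x ∈ X, ∃ t ∈ T, t ≤ x := by
  classical
  obtain ⟨M, hM⟩ : ∃ M : Set (ι → ℕ), M = {v | Minimal (fun v => v ∈ X) v} := ⟨_, rfl⟩
  have hanti : IsAntichain (· ≤ ·) M := by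
    rw [hM]
    exact setOfPred_minimal_antichain _
  have hfin : M.Finite := WellQuasiOrderedLE.finite_of_isAntichain hanti
  refine ⟨hfin.toFinset, fun v hv => ?_, fun v hv => ?_⟩
  · rw [Set.Finite.mem_toFinset, hM] at hv
    exact hv.1
  · obtain ⟨v', hv', hmin⟩ := exists_minimal_le_of_wellFoundedLT (P := fun v => v ∈ X) v hv
    exact ⟨v', by rw [Set.Finite.mem_toFinset, hM]; exact hmin, hv'⟩

/-- the vectors -/
abbrev ZZ (s N : ℕ) : Type := (Fin s → ℕ) × (Fin N → ℤ)

/-- the data of a cone -/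
structure CD (J : Type) (s N : ℕ) where
  /-- inequalities -/
  a : J → Fin N → ℤ
  /-- inequalities -/
  β : J → Fin s → ℤ
  /-- the equation -/
  dd : Fin N → ℤ
  /-- the equation -/
  γ : Fin s → ℤ

namespace CD

variable {J : Type} {s N : ℕ} (D : CD J s N)

/-- the inequalities -/
def L (j : J) (z : ZZ s N) : ℤ := ∑ k, D.a j k * z.2 k - ∑ i, D.β j i * (z.1 i : ℤ)

/-- the equation -/
def h (z : ZZ s N) : ℤ := ∑ k, D.dd k * z.2 k - ∑ i, D.γ i * (z.1 i : ℤ)

theorem L_add (j : J) (z z' : ZZ s N) : D.L j (z + z') = D.L j z + D.L j z' := by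
  unfold L
  simp only [Prod.fst_add, Prod.snd_add, Pi.add_apply, mul_add, Nat.cast_add,
    Finset.sum_add_distrib]
  ring

theorem h_add (z z' : ZZ s N) : D.h (z + z') = D.h z + D.h z' := by
  unfold h
  simp only [Prod.fst_add, Prod.snd_add, Pi.add_apply, mul_add, Nat.cast_add,
    Finset.sum_add_distrib]
  ring

theorem L_zero (j : J) : D.L j 0 = 0 := by
  unfold L
  simp

theorem h_zero : D.h 0 = 0 := by
  unfold h
  simp

/-- the lattice points of the cone -/
def cone : AddSubmonoid (ZZ s N) where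
  carrier := {z | (∀ j, 0 ≤ D.L j z) ∧ D.h z = 0}
  zero_mem' := ⟨fun j => (D.L_zero j).ge, D.h_zero⟩
  add_mem' := by
    rintro z z' ⟨h1, h2⟩ ⟨h3, h4⟩
    refine ⟨fun j => ?_, ?_⟩
    · rw [D.L_add]
      exact add_nonneg (h1 j) (h3 j)
    · rw [D.h_add, h2, h4, add_zero]

theorem mem_cone {z : ZZ s N} : z ∈ D.cone ↔ (∀ j, 0 ≤ D.L j z) ∧ D.h z = 0 := Iff.rfl

/-- the lattice points near the cone -/
def near (c : ℕ) : Set (ZZ s N) := {z | (∀ j, -(c : ℤ) ≤ D.L j z) ∧ |D.h z| ≤ c}

/-- the slack -/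
def slack (c : ℕ) (z : ZZ s N) : J ⊕ Fin s → ℕ :=
  Sum.elim (fun j => (D.L j z + c).toNat) z.1

/-- the difference -/
theorem exists_diff {c : ℕ} {z w : ZZ s N} (hw : ∀ j, -(c : ℤ) ≤ D.L j w)
    (hle : D.slack c w ≤ D.slack c z) (hz : ∀ j, -(c : ℤ) ≤ D.L j z) (hh : D.h z = D.h w) :
    ∃ t ∈ D.cone, z = w + t := by
  have h1 : ∀ i, w.1 i ≤ z.1 i := fun i => hle (Sum.inr i)
  obtain ⟨t, ht⟩ : ∃ t : ZZ s N, t = (fun i => z.1 i - w.1 i, fun k => z.2 k - w.2 k) := ⟨_, rfl⟩
  have hzt : z = w + t := by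
    rw [ht]
    refine Prod.ext (funext fun i => ?_) (funext fun k => ?_)
    · change z.1 i = w.1 i + (z.1 i - w.1 i)
      have := h1 i
      omega
    · change z.2 k = w.2 k + (z.2 k - w.2 k)
      ring
  refine ⟨t, ⟨fun j => ?_, ?_⟩, hzt⟩
  · have h2 : (D.L j w + c).toNat ≤ (D.L j z + c).toNat := hle (Sum.inl j)
    have h3 := hw j
    have h4 := hz j
    have h5 : D.L j z = D.L j w + D.L j t := by rw [hzt, D.L_add]
    omega
  · have h5 : D.h z = D.h w + D.h t := by rw [hzt, D.h_add]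
    omega

/-- **The lattice points near the cone.** -/
theorem exists_near [Finite J] (c : ℕ) : ∃ W : Finset (ZZ s N),
    ∀ z ∈ D.near c, ∃ w ∈ W, ∃ t ∈ D.cone, z = w + t := by
  classical
  have key : ∀ h0 : ℤ, ∃ W : Finset (ZZ s N), ∀ z ∈ D.near c, D.h z = h0 →
      ∃ w ∈ W, ∃ t ∈ D.cone, z = w + t := by
    intro h0
    obtain ⟨T, hT1, hT2⟩ := exists_min (D.slack c '' {z | z ∈ D.near c ∧ D.h z = h0})
    choose! f hf using hT1
    refine ⟨T.image f, fun z hz hzh => ?_⟩
    obtain ⟨t, ht, hle⟩ := hT2 (D.slack c z) ⟨z, ⟨hz, hzh⟩, rfl⟩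
    have h1 := hf t ht
    refine ⟨f t, Finset.mem_image_of_mem f ht, ?_⟩
    refine D.exists_diff h1.1.1.1 ?_ hz.1 ?_
    · rw [h1.2]
      exact hle
    · rw [hzh, h1.1.2]
  choose W hW using key
  refine ⟨(Finset.Icc (-(c : ℤ)) c).biUnion W, fun z hz => ?_⟩
  obtain ⟨w, hw, ht⟩ := hW (D.h z) z hz rfl
  refine ⟨w, Finset.mem_biUnion.2 ⟨D.h z, ?_, hw⟩, ht⟩
  rw [Finset.mem_Icc]
  exact abs_le.1 hz.2

/-- **Finite generation.** -/
theorem exists_gens [Finite J] (hp : ∀ z ∈ D.cone, (∀ j, D.L j z = 0) → (∀ i, z.1 i = 0) → z = 0) :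
    ∃ G : Finset (ZZ s N), (∀ z ∈ G, z ∈ D.cone) ∧
      D.cone ≤ AddSubmonoid.closure (G : Set (ZZ s N)) := by
  classical
  have hJ := Fintype.ofFinite J
  obtain ⟨T, hT1, hT2⟩ := exists_min (D.slack 0 '' {z | z ∈ D.cone ∧ z ≠ 0})
  choose! f hf using hT1
  refine ⟨T.image f, ?_, ?_⟩
  · intro z hz
    obtain ⟨t, ht, rfl⟩ := Finset.mem_image.1 hz
    exact (hf t ht).1.1
  · have key : ∀ (n : ℕ) (z : ZZ s N), z ∈ D.cone → ∑ i, D.slack 0 z i ≤ n →
        z ∈ AddSubmonoid.closure ((T.image f : Finset (ZZ s N)) : Set (ZZ s N)) := by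
      intro n
      induction n with
      | zero =>
        intro z hz hn
        have h1 : ∀ i, D.slack 0 z i = 0 := by
          intro i
          have h2 := (Finset.sum_eq_zero_iff.1 (Nat.le_zero.1 hn)) i (Finset.mem_univ i)
          exact h2
        have h2 : z = 0 := by
          refine hp z hz (fun j => ?_) fun i => h1 (Sum.inr i)
          have h3 : (D.L j z + (0 : ℕ)).toNat = 0 := h1 (Sum.inl j)
          have h4 := hz.1 j
          omega
        rw [h2]
        exact zero_mem _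
      | succ n ih =>
        intro z hz hn
        by_cases hz0 : z = 0
        · rw [hz0]
          exact zero_mem _
        obtain ⟨t, ht, hle⟩ := hT2 (D.slack 0 z) ⟨z, ⟨hz, hz0⟩, rfl⟩
        obtain ⟨⟨h1, h1'⟩, h2⟩ := hf t ht
        obtain ⟨u, hu, hzu⟩ := D.exists_diff (c := 0) (z := z) (w := f t)
          (fun j => by simpa using h1.1 j) (by rw [h2]; exact hle) (fun j => by simpa using hz.1 j)
          (by rw [hz.2, h1.2])
        rw [hzu]
        refine add_mem (AddSubmonoid.subset_closure (Finset.mem_coe.2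
          (Finset.mem_image_of_mem f ht))) (ih u hu ?_)
        have hadd : ∀ i, D.slack 0 z i = D.slack 0 (f t) i + D.slack 0 u i := by
          intro i
          rcases i with j | i
          · change (D.L j z + (0 : ℕ)).toNat = (D.L j (f t) + (0 : ℕ)).toNat +
              (D.L j u + (0 : ℕ)).toNat
            have h3 := h1.1 j
            have h4 := hu.1 j
            rw [hzu, D.L_add]
            omega
          · change z.1 i = (f t).1 i + u.1 i
            rw [hzu]
            rfl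
        have h5 : 1 ≤ ∑ i, D.slack 0 (f t) i := by
          by_contra hcon
          have h6 : ∑ i, D.slack 0 (f t) i = 0 := by omega
          have h7 : ∀ i, D.slack 0 (f t) i = 0 := fun i =>
            (Finset.sum_eq_zero_iff.1 h6) i (Finset.mem_univ i)
          apply h1'
          refine hp _ h1 (fun j => ?_) fun i => h7 (Sum.inr i)
          have h8 : (D.L j (f t) + (0 : ℕ)).toNat = 0 := h7 (Sum.inl j)
          have h9 := h1.1 j
          omega
        have h6 : ∑ i, D.slack 0 z i = ∑ i, D.slack 0 (f t) i + ∑ i, D.slack 0 u i := by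
          rw [← Finset.sum_add_distrib]
          exact Finset.sum_congr rfl fun i _ => hadd i
        omega
    exact fun z hz => key _ z hz le_rfl

end CD

end Pool.Agent.J4.H19.LC
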