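import Pool.Agent.J4.H19.LQ.SecTr
import Pool.Agent.J4.H19.LQ.Cone
import Pool.Agent.J4.H19.LQ.Alg
import Pool.Agent.J4.H19.LP.Core

/-!
Finite generation of adjoint rings, for monomial divisors.
-/

set_option autoImplicit false
set_option linter.overlappingInstances false
set_option linter.unusedSectionVars false
set_option maxHeartbeats 1000000

open FF MvPolynomial IntermediateField Pool.Agent.W603.LV Pool.Agent.W619.PQ
open Pool.Agent.W619.TW Pool.Agent.W602.GT Pool.Agent.TH122.AB Pool.Agent.TH756.PN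
open Pool.Agent.Y169.CH Pool.Agent.W602.Cov.G Pool.Agent.W602.Cov Pool.Agent.TH152.AC
open Pool.Agent.Y169.TH

namespace Pool.Agent.J4.H19.LC

namespace Cv

variable {d : ℕ} {Φ : Arr (d + 1)} {K : Type} [Field K] [Algebra ℂ K] {R : ℕ} (C : Cv Φ K R)

theorem Ex_add (T T' : ℕ) (w w' : Fin (d + 2) → ℤ) :
    C.Ex (T + T') (w + w') = C.Ex T w * C.Ex T' w' := by
  unfold Ex
  rw [← Finset.prod_mul_distrib]
  refine Finset.prod_congr rfl fun k _ => ?_
  rw [← zpow_add₀ (C.F_ne k)]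
  congr 1
  rw [Pi.add_apply]
  push_cast
  ring

theorem Ex_zero : C.Ex 0 0 = 1 := by
  unfold Ex
  simp

/-- the monomials in the coordinates -/
theorem Ex_yv (m q : ℕ) (a : Fin (d + 1) →₀ ℕ) :
    C.Ex m (yv Φ q a) * C.Lam m = aeval C.x (Φ.G 0) ^ q * ∏ b, C.Y b ^ a b := by
  have h1 : C.Ex m (yv Φ q a) * C.Lam m = ∏ k, aeval C.x (Φ.F k) ^ (yv Φ q a k) := by
    unfold Lam Ex
    rw [← Finset.prod_mul_distrib]
    refine Finset.prod_congr rfl fun k _ => ?_
    rw [← zpow_natCast, ← zpow_add₀ (C.F_ne k)]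
    congr 1
    ring
  have hG : ∀ k, aeval C.x (Φ.G k) = aeval C.x (Φ.F k) ^ Φ.ee k := fun k => ae_G C.x k
  have hY : ∀ b, C.Y b = aeval C.x (Φ.G b.succ) / aeval C.x (Φ.G 0) := fun b => rfl
  rw [h1, Fin.prod_univ_succ, yv_zero]
  simp only [yv_succ]
  have h2 : ∏ b, C.Y b ^ a b = (∏ b, aeval C.x (Φ.G b.succ) ^ a b) /
      aeval C.x (Φ.G 0) ^ (∑ b, a b) := by
    rw [← Finset.prod_pow_eq_pow_sum, ← Finset.prod_div_distrib]
    exact Finset.prod_congr rfl fun b _ => by rw [hY, div_pow]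
  have h3 : aeval C.x (Φ.F 0) ^ ((Φ.ee 0 : ℤ) * (q - ∑ b, (a b : ℤ))) =
      aeval C.x (Φ.G 0) ^ q / aeval C.x (Φ.G 0) ^ (∑ b, a b) := by
    rw [zpow_mul, zpow_natCast, ← hG, zpow_sub₀ (C.G_ne 0), zpow_natCast]
    congr 1
    rw [← zpow_natCast]
    push_cast
    rfl
  have h4 : ∀ b : Fin (d + 1), aeval C.x (Φ.F b.succ) ^ ((Φ.ee b.succ : ℤ) * a b) =
      aeval C.x (Φ.G b.succ) ^ a b := by
    intro b
    rw [zpow_mul, zpow_natCast, zpow_natCast, ← hG]
  rw [h2, h3, Finset.prod_congr rfl fun b _ => h4 b]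
  ring

/-- finitely many inequalities which give the polyhedra -/
structure TstM {s : ℕ} (b : Fin s → (Fin (d + 2) → ℕ) → ℚ) (S : Finset (Fin (d + 2) → ℕ)) :
    Prop where
  adm : ∀ v ∈ S, Adm C.M C.a v
  unit : ∀ k, (fun i => if i = k then per C.M else 0) ∈ S
  suff : ∀ v, Adm C.M C.a v → ∃ v' ∈ S, v' ≤ v ∧ ∀ i, b i v' ≤ b i v

/-- finitely many inequalities suffice -/
theorem exists_tstM {s : ℕ} {b : Fin s → (Fin (d + 2) → ℕ) → ℚ}
    (hfin : ∀ i, (Set.range (b i)).Finite) : ∃ S, C.TstM b S := by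
  classical
  have key : ∀ c : Fin s → ℚ, ∃ S : Finset (Fin (d + 2) → ℕ),
      (∀ v ∈ S, Adm C.M C.a v ∧ ∀ i, b i v ≤ c i) ∧
      ∀ v, Adm C.M C.a v → (∀ i, b i v ≤ c i) → ∃ v' ∈ S, v' ≤ v := by
    intro c
    obtain ⟨T, hT1, hT2⟩ := exists_min {v | Adm C.M C.a v ∧ ∀ i, b i v ≤ c i}
    exact ⟨T, hT1, fun v hv hc => hT2 v ⟨hv, hc⟩⟩
  choose S hS1 hS2 using key
  have hr : (Set.range fun (v : Fin (d + 2) → ℕ) (i : Fin s) => b i v).Finite := by
    refine (Set.Finite.pi' hfin).subset ?_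
    rintro _ ⟨v, rfl⟩ i
    exact ⟨v, rfl⟩
  refine ⟨hr.toFinset.biUnion S ∪
    Finset.univ.image fun (k : Fin (d + 2)) => (fun i => if i = k then per C.M else 0), ?_, ?_, ?_⟩
  · intro v hv
    rcases Finset.mem_union.1 hv with hv | hv
    · rw [Finset.mem_biUnion] at hv
      obtain ⟨c, -, hc⟩ := hv
      exact (hS1 c v hc).1
    · obtain ⟨k, -, rfl⟩ := Finset.mem_image.1 hv
      exact C.adm_unit k
  · intro k
    exact Finset.mem_union_right _ (Finset.mem_image_of_mem _ (Finset.mem_univ k))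
  · intro v hv
    obtain ⟨v', hv', hle⟩ := hS2 (fun i => b i v) v hv fun i => le_rfl
    exact ⟨v', Finset.mem_union_left _ (Finset.mem_biUnion.2 ⟨fun i => b i v, by simp, hv'⟩), hle,
      (hS1 _ _ hv').2⟩

section

variable {s : ℕ} {ρ : Fin s → ℕ} {b : Fin s → (Fin (d + 2) → ℕ) → ℚ} {δ : Fin s → Place ℂ K → ℚ}
  {W : Set (Place ℂ K)} {S0 : Finset (Fin (d + 2) → ℕ)}

/-- **Finite generation.** -/
theorem fg_main (hρ : ∀ i, 0 < ρ i) (hδ : ∀ i, C.MonoW W (δ i) (b i) 0) (hb0 : ∀ i, b i 0 = 0)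
    (hb1 : ∀ i v, b i v ≤ 1)
    (hbg : ∀ i (g : ℕ) (v : Fin (d + 2) → ℕ), 1 ≤ g → Adm C.M C.a v →
      1 - b i (fun k => g * v k) ≤ g * (1 - b i v)) (hS : C.TstM b S0)
    {T : {v // v ∈ S0} → C.Dir} (hT : ∀ s, (T s).v = s.1)
    (hW : ∀ P ∈ C.LPl, C.Need T P → P ∈ W)
    {D : Fin (d + 1) → Derivation ℂ K K} (hD : ∀ i j, D i (C.u j) = if i = j then 1 else 0)
    {V : (Fin s →₀ ℕ) → Submodule ℂ K} {Rg : Subalgebra ℂ (MvPolynomial (Fin s) K)}
    (hR : ∀ p, p ∈ Rg ↔ ∀ m, coeff m p ∈ V m)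
    (H1 : ∀ m, ∀ f ∈ V m, ∃ ω : (Fin (d + 1) → Derivation ℂ K K) → K, ω D = f ∧
      SecB (d + 1) W (fun P => (∑ i, (ρ i * m i : ℚ) * δ i P) / (∑ i, ρ i * m i : ℕ)) {1}
        (∑ i, ρ i * m i) ω)
    (H2 : ∀ (m : Fin s →₀ ℕ) (u : Fin (d + 2) → ℤ),
      ∑ k, (Φ.dF k : ℤ) * u k = (∑ k, (Φ.dF k : ℤ) - (d + 2)) * (∑ i, ρ i * m i : ℕ) →
      (∀ v ∈ S0, ∑ i, (ρ i * m i : ℚ) * (1 - b i v) ≤ ∑ k, (v k : ℚ) * u k) →
      C.Ex (∑ i, ρ i * m i) u ∈ V m) : Rg.FG := by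
  classical
  obtain ⟨K', iF, iA, iK, hTow, δn, c, Q0, bb, hQ0, hexp⟩ := C.sec_exp T {1} hD
  obtain ⟨κ, hκ⟩ : ∃ κ : ℤ, κ = ∑ k, (Φ.dF k : ℤ) - (d + 2) := ⟨_, rfl⟩
  have hκq : (κ : ℚ) = ∑ k, (Φ.dF k : ℚ) - (d + 2) := by
    rw [hκ]
    push_cast
    ring
  have hκ0 : (0 : ℚ) ≤ κ := by
    rw [hκq]
    exact kappa_nonneg Φ
  -- the cone
  obtain ⟨R0, hR0, hden⟩ := exists_den fun z : {v // v ∈ S0} × Fin s => (ρ z.2 : ℚ) * (1 - b z.2 z.1.1)
  choose β hβ using hden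
  obtain ⟨cd, hcd⟩ : ∃ cd : CD {v // v ∈ S0} s (d + 2), cd =
    ⟨fun v k => R0 * v.1 k, fun v i => β (v, i), fun k => Φ.dF k, fun i => κ * ρ i⟩ := ⟨_, rfl⟩
  have hL : ∀ (v : {v // v ∈ S0}) (z : ZZ s (d + 2)), ((cd.L v z : ℤ) : ℚ) =
      R0 * (∑ k, (v.1 k : ℚ) * z.2 k - ∑ i, (ρ i * z.1 i : ℚ) * (1 - b i v.1)) := by
    intro v z
    rw [hcd]
    unfold CD.L
    dsimp only
    push_cast
    rw [mul_sub, Finset.mul_sum, Finset.mul_sum]
    congr 1
    · exact Finset.sum_congr rfl fun k _ => by ring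
    · refine Finset.sum_congr rfl fun i _ => ?_
      have h1 := hβ (v, i)
      dsimp only at h1
      rw [← h1]
      ring
  have hh : ∀ z : ZZ s (d + 2), cd.h z = ∑ k, (Φ.dF k : ℤ) * z.2 k - κ * (∑ i, ρ i * z.1 i : ℕ) := by
    intro z
    rw [hcd]
    unfold CD.h
    dsimp only
    push_cast
    rw [Finset.mul_sum]
    congr 1
    exact Finset.sum_congr rfl fun i _ => by ring
  have hR0q : (0 : ℚ) < R0 := by exact_mod_cast hR0
  have hper : (0 : ℤ) < per C.M := by exact_mod_cast per_pos C.hM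
  obtain ⟨Gn, hG1, hG2⟩ := cd.exists_gens (by
    intro z _ h1 h2
    have h3 : z.1 = 0 := funext h2
    have h4 : z.2 = 0 := by
      funext k
      have h5 := h1 ⟨_, hS.unit k⟩
      have h6 := hL ⟨_, hS.unit k⟩ z
      rw [h5, Int.cast_zero] at h6
      have h7 : (∑ k', ((if k' = k then per C.M else 0 : ℕ) : ℚ) * z.2 k' -
          ∑ i, (ρ i * z.1 i : ℚ) * (1 - b i (fun i => if i = k then per C.M else 0))) = 0 :=
        (mul_eq_zero.1 h6.symm).resolve_left hR0q.ne'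
      rw [h3, Finset.sum_eq_single k] at h7
      · simp only [if_true, Pi.zero_apply, Nat.cast_zero, mul_zero, zero_mul,
          Finset.sum_const_zero, sub_zero] at h7
        have h8 : ((per C.M : ℕ) : ℚ) ≠ 0 := by exact_mod_cast hper.ne'
        have h9 := (mul_eq_zero.1 h7).resolve_left h8
        rw [Pi.zero_apply]
        exact_mod_cast h9
      · intro i _ hi
        rw [if_neg hi, Nat.cast_zero, zero_mul]
      · intro h
        exact absurd (Finset.mem_univ _) h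
    exact Prod.ext h3 h4)
  obtain ⟨c', hc'⟩ : ∃ c' : ℕ, c' = R0 * c + (c + Φ.E) := ⟨_, rfl⟩
  obtain ⟨Wn, hWn⟩ := cd.exists_near c'
  -- the monomials
  obtain ⟨E, hE⟩ : ∃ E : ZZ s (d + 2) → MvPolynomial (Fin s) K, E = fun z =>
    monomial (Finsupp.equivFunOnFinite.symm z.1) (C.Ex (∑ i, ρ i * z.1 i) z.2) := ⟨_, rfl⟩
  have hEadd : ∀ z z', E (z + z') = E z * E z' := by
    intro z z'
    rw [hE]
    dsimp only
    rw [monomial_mul, ← C.Ex_add]
    have h1 : ∑ i, ρ i * (z + z').1 i = ∑ i, ρ i * z.1 i + ∑ i, ρ i * z'.1 i := by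
      rw [← Finset.sum_add_distrib]
      exact Finset.sum_congr rfl fun i _ => by
        change ρ i * (z.1 i + z'.1 i) = _
        ring
    have h2 : Finsupp.equivFunOnFinite.symm (z + z').1 =
        Finsupp.equivFunOnFinite.symm z.1 + Finsupp.equivFunOnFinite.symm z'.1 := by
      ext i
      rfl
    rw [h1, h2]
    rfl
  have hE0 : E 0 = 1 := by
    rw [hE]
    dsimp only
    have h1 : ∑ i, ρ i * (0 : ZZ s (d + 2)).1 i = 0 := by simp
    rw [h1]
    have h2 : Finsupp.equivFunOnFinite.symm (0 : ZZ s (d + 2)).1 = 0 := by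
      ext i
      rfl
    rw [h2]
    change monomial 0 (C.Ex 0 0) = 1
    rw [C.Ex_zero]
    exact MvPolynomial.C_1
  obtain ⟨A, hA⟩ : ∃ A : Subalgebra ℂ (MvPolynomial (Fin s) K),
    A = Algebra.adjoin ℂ ((Gn.image E : Finset _) : Set (MvPolynomial (Fin s) K)) := ⟨_, rfl⟩
  have hEA : ∀ z ∈ cd.cone, E z ∈ A := by
    intro z hz
    have h1 := hG2 hz
    induction h1 using AddSubmonoid.closure_induction with
    | mem x hx =>
      rw [hA]
      exact Algebra.subset_adjoin (Finset.mem_coe.2 (Finset.mem_image_of_mem E hx))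
    | zero =>
      rw [hE0]
      exact one_mem A
    | add x y hx hy hx' hy' =>
      have h2 : ∀ w ∈ AddSubmonoid.closure (Gn : Set (ZZ s (d + 2))), w ∈ cd.cone := by
        intro w hw
        exact (AddSubmonoid.closure_le.2 hG1) hw
      rw [hEadd]
      exact mul_mem (hx' (h2 x hx)) (hy' (h2 y hy))
  have hAfg : A.FG := ⟨Gn.image E, hA.symm⟩
  have hAR : A ≤ Rg := by
    rw [hA, Algebra.adjoin_le_iff]
    intro x hx
    obtain ⟨z, hz, rfl⟩ := Finset.mem_image.1 (Finset.mem_coe.1 hx)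
    change E z ∈ Rg
    rw [hR, hE]
    intro m
    dsimp only
    rw [coeff_monomial]
    split_ifs with hm
    · have hzc := hG1 z hz
      have h1 := H2 (Finsupp.equivFunOnFinite.symm z.1) z.2 (by
        have h2 := hzc.2
        rw [hh] at h2
        have h3 := sub_eq_zero.1 h2
        rw [h3, hκ]
        rfl) (fun v hv => by
        have h2 := hzc.1 ⟨v, hv⟩
        have h3 : (0 : ℚ) ≤ ((cd.L ⟨v, hv⟩ z : ℤ) : ℚ) := by exact_mod_cast h2
        rw [hL] at h3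
        have h4 := nonneg_of_mul_nonneg_right h3 hR0q
        change ∑ i, (ρ i * z.1 i : ℚ) * (1 - b i v) ≤ _
        dsimp only at h4
        linarith)
      rw [← hm]
      exact h1
    · exact zero_mem _
  -- the extension of the field
  obtain ⟨φ, hφ⟩ : ∃ φ : MvPolynomial (Fin s) K →ₐ[ℂ] MvPolynomial (Fin s) K',
    φ = MvPolynomial.mapAlgHom (IsScalarTower.toAlgHom ℂ K K') := ⟨_, rfl⟩
  have hφm : ∀ m f, φ (monomial m f) = monomial m (algebraMap K K' f) := by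
    intro m f
    rw [hφ, MvPolynomial.mapAlgHom_apply, map_monomial]
    rfl
  have hφi : Function.Injective φ := by
    intro x y hxy
    rw [hφ, MvPolynomial.mapAlgHom_apply, MvPolynomial.mapAlgHom_apply] at hxy
    exact MvPolynomial.map_injective _ (algebraMap K K').injective hxy
  refine Subalgebra.fg_of_fg_map Rg φ hφi ?_
  have hAR' : A.map φ ≤ Rg.map φ := Subalgebra.map_mono hAR
  refine fg_of_module (A := A.map φ) (hAfg.map φ) hAR' (q := MvPolynomial.C Q0) (fun x hx => ?_)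
    ((Wn ×ˢ Finset.univ).image fun z => φ (E z.1) * MvPolynomial.C (bb z.2)) ?_
  · exact (mul_eq_zero.1 hx).resolve_right fun h => hQ0 (MvPolynomial.C_eq_zero.1 h)
  rintro _ ⟨p, hp, rfl⟩
  have hp' := (hR p).1 hp
  change φ p * MvPolynomial.C Q0 ∈ _
  rw [p.as_sum, map_sum, Finset.sum_mul]
  refine Submodule.sum_mem _ fun m _ => ?_
  obtain ⟨f, hf⟩ : ∃ f, f = coeff m p := ⟨_, rfl⟩
  have hfV : f ∈ V m := by
    rw [hf]
    exact hp' m
  rw [← hf, hφm]
  obtain ⟨ω, hω, hsec⟩ := H1 m f hfV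
  obtain ⟨M, hM⟩ : ∃ M : ℕ, M = ∑ i, ρ i * m i := ⟨_, rfl⟩
  rw [← hM] at hsec
  have hMq : (M : ℚ) = ∑ i, (ρ i * m i : ℚ) := by
    rw [hM]
    push_cast
    rfl
  -- the divisor
  obtain ⟨bm, hbm⟩ : ∃ bm : (Fin (d + 2) → ℕ) → ℚ,
    bm = fun v => (∑ i, (ρ i * m i : ℚ) * b i v) / M := ⟨_, rfl⟩
  have hMb : ∀ v, (M : ℚ) * (1 - bm v) = ∑ i, (ρ i * m i : ℚ) * (1 - b i v) := by
    intro v
    rw [hbm]
    dsimp only
    by_cases h0 : (M : ℚ) = 0
    · have h1 : ∀ i ∈ Finset.univ, (ρ i * m i : ℚ) = 0 := by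
        rw [h0] at hMq
        exact (Finset.sum_eq_zero_iff_of_nonneg fun i _ => by positivity).1 hMq.symm
      rw [h0, zero_mul]
      symm
      exact Finset.sum_eq_zero fun i hi => by rw [h1 i hi, zero_mul]
    · rw [mul_sub, mul_one, mul_div_cancel₀ _ h0, hMq, ← Finset.sum_sub_distrib]
      exact Finset.sum_congr rfl fun i _ => by ring
  have hmono : C.MonoW W (fun P => (∑ i, (ρ i * m i : ℚ) * δ i P) / (M : ℕ)) bm 0 := by
    intro P hP α v hdat
    rw [hbm]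
    dsimp only
    rw [zero_mul, sub_zero]
    congr 1
    refine Finset.sum_congr rfl fun i _ => ?_
    rw [hδ i P hP α v hdat]
    ring
  have hM0 : (0 : ℚ) ≤ M := by positivity
  have hM00 : (M : ℚ) = 0 → ∀ v, bm v = 0 := by
    intro h0 v
    rw [hbm]
    dsimp only
    rw [h0, div_zero]
  have hbm0 : bm 0 = 0 := by
    rw [hbm]
    dsimp only
    have h1 : ∑ i, (ρ i * m i : ℚ) * b i 0 = 0 := Finset.sum_eq_zero fun i _ => by rw [hb0, mul_zero]
    rw [h1, zero_div]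
  have hbm1 : ∀ v, bm v ≤ 1 := by
    intro v
    rcases hM0.lt_or_eq with h0 | h0
    · have h1 := hMb v
      have h2 : 0 ≤ ∑ i, (ρ i * m i : ℚ) * (1 - b i v) := Finset.sum_nonneg fun i _ =>
        mul_nonneg (by positivity) (by linarith [hb1 i v])
      rw [← h1] at h2
      have h3 := nonneg_of_mul_nonneg_right h2 h0
      linarith
    · rw [hM00 h0.symm v]
      exact zero_le_one
  have hbmg : ∀ (g : ℕ) (v : Fin (d + 2) → ℕ), 1 ≤ g → Adm C.M C.a v →
      1 - bm (fun k => g * v k) ≤ g * (1 - bm v) := by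
    intro g v hg hv
    rcases hM0.lt_or_eq with h0 | h0
    · have h1 : (M : ℚ) * (1 - bm (fun k => g * v k)) ≤ M * (g * (1 - bm v)) := by
        have h3 : (M : ℚ) * (g * (1 - bm v)) = g * (M * (1 - bm v)) := by ring
        rw [h3, hMb, hMb, Finset.mul_sum]
        refine Finset.sum_le_sum fun i _ => ?_
        have h2 := mul_le_mul_of_nonneg_left (hbg i g v hg hv)
          (show (0 : ℚ) ≤ ρ i * m i by positivity)
        linarith
      exact le_of_mul_le_mul_left h1 h0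
    · rw [hM00 h0.symm, hM00 h0.symm]
      have : (1 : ℚ) ≤ g := by exact_mod_cast hg
      linarith
  -- the common denominator
  obtain ⟨X, hX⟩ : ∃ X : ℚ, X = κ * M + c := ⟨_, rfl⟩
  have hX0 : 0 ≤ X := by
    rw [hX]
    positivity
  obtain ⟨q, hq1, hq2⟩ := exists_q hX0 Φ
  have hpw : pw ({1} : Finset K) 0 = {1} := by
    ext z
    rw [mem_pw]
    simp [eq_comm]
  obtain ⟨RR, hRR1, hRR2⟩ := hexp W hW _ bm 0 hmono hbm0 hbm1 hbmg M 0 q ω (by rw [hpw]; exact hsec)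
    (by
      rw [add_zero, ← hκq]
      simp only [Nat.cast_zero, zero_add, mul_one]
      rw [← hX]
      exact hq1)
  rw [hω, zero_add, pow_one] at hRR1
  -- the expansion
  have hG0 : aeval C.x (Φ.G 0) ^ q ≠ 0 := pow_ne_zero _ (C.G_ne 0)
  have hLam := C.Lam_ne M
  have h1 : algebraMap K K' f * Q0 = ∑ i, ∑ a ∈ (RR i).support,
      algebraMap ℂ K' (coeff a (RR i)) * (algebraMap K K' (C.Ex M (yv Φ q a)) * bb i) := by
    have h2 : algebraMap K K' f * Q0 = algebraMap K K' (aeval C.x (Φ.G 0) ^ q / C.Lam M) *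
        (algebraMap K K' (f * C.Lam M / aeval C.x (Φ.G 0) ^ q) * Q0) := by
      rw [← mul_assoc, ← map_mul]
      congr 2
      field_simp
    rw [h2, hRR1, Finset.mul_sum]
    refine Finset.sum_congr rfl fun i _ => ?_
    have h5 : aeval C.Y (RR i) = ∑ a ∈ (RR i).support,
        algebraMap ℂ K (coeff a (RR i)) * ∏ b, C.Y b ^ a b := by
      rw [aeval_def, eval₂_eq']
    rw [← mul_assoc, ← map_mul, h5, Finset.mul_sum, map_sum, Finset.sum_mul]
    refine Finset.sum_congr rfl fun a _ => ?_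
    rw [IsScalarTower.algebraMap_apply ℂ K K',
      ← mul_assoc (algebraMap K K' (algebraMap ℂ K _)) (algebraMap K K' (C.Ex M _)) (bb i), ← map_mul]
    congr 2
    have h3 := C.Ex_yv M q a
    have h4 : C.Ex M (yv Φ q a) = aeval C.x (Φ.G 0) ^ q * (∏ b, C.Y b ^ a b) / C.Lam M := by
      rw [← h3]
      field_simp
    rw [h4]
    ring
  have h2 : monomial m (algebraMap K K' f) * MvPolynomial.C Q0 = ∑ i, ∑ a ∈ (RR i).support,
      coeff a (RR i) • (φ (E (m, yv Φ q a)) * MvPolynomial.C (bb i)) := by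
    rw [mul_comm, MvPolynomial.C_mul_monomial, mul_comm Q0, h1, map_sum]
    refine Finset.sum_congr rfl fun i _ => ?_
    rw [map_sum]
    refine Finset.sum_congr rfl fun a _ => ?_
    rw [hE]
    dsimp only
    rw [hφm, mul_comm (monomial _ _), MvPolynomial.C_mul_monomial, MvPolynomial.smul_monomial,
      Algebra.smul_def]
    have h3 : Finsupp.equivFunOnFinite.symm (⇑m) = m := by
      ext i
      rfl
    rw [h3, ← hM, mul_comm (bb i)]
  rw [h2]
  refine Submodule.sum_mem _ fun i _ => Submodule.sum_mem _ fun a ha => ?_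
  have hnear : ((m, yv Φ q a) : ZZ s (d + 2)) ∈ cd.near c' := by
    have hc1 : (0 : ℚ) ≤ c := by positivity
    have hEE : (0 : ℚ) ≤ Φ.E := by positivity
    constructor
    · intro v
      have h3 := hRR2 i a ha v
      rw [hT, hMb, ← dot_yv] at h3
      simp only [Nat.cast_zero, zero_add, mul_one] at h3
      have h4 := hL v (m, yv Φ q a)
      dsimp only at h4
      push_cast at h3
      have h5 : -(R0 * c : ℚ) ≤ ((cd.L v (m, yv Φ q a) : ℤ) : ℚ) := by
        rw [h4]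
        have h6 : -(c : ℚ) ≤ ∑ k, (v.1 k : ℚ) * (yv Φ q a k : ℚ) -
            ∑ i, (ρ i * m i : ℚ) * (1 - b i v.1) := by linarith
        have h7 := mul_le_mul_of_nonneg_left h6 hR0q.le
        linarith
      have h6 : (((-(c' : ℤ)) : ℤ) : ℚ) ≤ ((cd.L v (m, yv Φ q a) : ℤ) : ℚ) := by
        rw [hc']
        push_cast
        linarith
      exact_mod_cast h6
    · rw [hh]
      dsimp only
      rw [deg_yv, abs_le, ← hM]
      rw [hX] at hq1 hq2
      have h3 : (0 : ℚ) ≤ R0 * c := by positivity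
      constructor
      · have h4 : (((-(c' : ℤ)) : ℤ) : ℚ) ≤ ((Φ.E * q - κ * M : ℤ) : ℚ) := by
          rw [hc']
          push_cast
          linarith
        exact_mod_cast h4
      · have h4 : ((Φ.E * q - κ * M : ℤ) : ℚ) ≤ ((c' : ℤ) : ℚ) := by
          rw [hc']
          push_cast
          linarith
        exact_mod_cast h4
  obtain ⟨w, hw, t, ht, hwt⟩ := hWn _ hnear
  rw [hwt, hEadd, map_mul]
  have h3 : coeff a (RR i) • (φ (E w) * φ (E t) * MvPolynomial.C (bb i)) =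
      ((⟨coeff a (RR i) • φ (E t), (A.map φ).smul_mem ⟨E t, hEA t ht, rfl⟩ _⟩ : A.map φ)) •
        (φ (E w) * MvPolynomial.C (bb i)) := by
    change _ = (coeff a (RR i) • φ (E t)) * (φ (E w) * MvPolynomial.C (bb i))
    rw [smul_mul_assoc]
    congr 1
    ring
  rw [h3]
  refine Submodule.smul_mem _ _ (Submodule.subset_span ?_)
  exact Finset.mem_coe.2 (Finset.mem_image.2 ⟨(w, i), Finset.mem_product.2 ⟨hw, Finset.mem_univ _⟩,
    rfl⟩)

end

end Cv

end Pool.Agent.J4.H19.LC
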