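import Pool.Agent.J4.H19.LQ.Adj

/-!
Finite generation of the adjoint rings of pairs.
-/

set_option autoImplicit false
set_option linter.overlappingInstances false
set_option linter.unusedSectionVars false
set_option maxHeartbeats 400000

open FF MvPolynomial IntermediateField Pool.Agent.W603.LV Pool.Agent.W619.PQ
open Pool.Agent.W602.GT Pool.Agent.TH122.AB
open Pool.Agent.Y169.CH Pool.Agent.W602.Cov.G Pool.Agent.W602.Cov Pool.Agent.TH152.AC
open Pool.Agent.Y169.TH Pool.Agent.Y172 Pool.Agent.R887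

namespace Pool.Agent.J4.H19.LC

variable {d R : ℕ} {K : Type} [Field K] [Algebra ℂ K] {N : ℕ} {y : Fin (N + 1) → K}
  {s : ℕ} {ρ : Fin s → ℕ} {Δ : Fin s → Place ℂ K → ℚ}

/-- powers of the generators -/
theorem ld_mul {n r : ℕ} {Δ : Place ℂ K → ℚ} (hy : NormalModel y) (hn : Algebra.trdeg ℂ K = n)
    {x : Fin n → K}
    (hx : IsTranscendenceBasis ℂ x) {D : Fin n → Derivation ℂ K K}
    (hD : ∀ i j, D i (x j) = if i = j then 1 else 0) {Q : Place ℂ K}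
    (hQ : Divisorial n Q) {a : ℚ} (h : HasLD y n Δ r Q a) (k : ℕ) : HasLD y n Δ (r * k) Q a := by
  obtain ⟨hfr, ⟨c, hc⟩, hne⟩ := exists_cc hy hn hx hD
  have hdiv : ∀ P, IsPrimeDivisor y P → Divisorial n P := fun P hP => hP.divisorial hy hn
  obtain ⟨η, hη, hηP, hηQ⟩ := h
  have hηD : η D ≠ 0 := hne r η hη Q _ hηQ
  have hk : IsPluri (r * k) fun E => η E ^ k := pluri_pow hη k
  have hkD : (fun E => η E ^ k) D ≠ 0 := pow_ne_zero _ hηD
  have hord : ∀ P : Place ℂ K, P.ord ((fun E => η E ^ k) D) = k * P.ord (η D) := fun P =>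
    P.ord_pow _ _
  refine ⟨fun E => η E ^ k, hk, fun P hP hPt => ?_, ?_⟩
  · refine ((hc P (hdiv P hP) _ _ hk _).2 hkD).2 ?_
    have h1 := ((hc P (hdiv P hP) _ η hη _).2 hηD).1 (hηP P hP hPt)
    rw [hord]
    push_cast
    linear_combination (k : ℚ) * h1
  · refine ((hc Q hQ _ _ hk _).2 hkD).2 ?_
    have h1 := ((hc Q hQ _ η hη _).2 hηD).1 hηQ
    rw [hord]
    push_cast
    linear_combination (k : ℚ) * h1

section

variable {x : Fin (d + 2) → K} (hx0 : x 0 ≠ 0)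
    (hbas : IsTranscendenceBasis ℂ fun b : Fin (d + 1) => x b.succ / x 0)
    {F : Fin (d + 2) → MvPolynomial (Fin (d + 2)) ℂ} {dF : Fin (d + 2) → ℕ} (hd : ∀ k, 0 < dF k)
    (hh : ∀ k, (F k).IsHomogeneous (dF k)) (hF0 : ∀ k, F k ≠ 0) (hN : Noc F) (hL : Lca F)
    {z : Fin R → K} {M : Fin R → ℕ} (hM : ∀ j, 0 < M j) {a : Fin R → Fin (d + 2) → ℕ}
    (hz : ∀ j, z j ^ M j = ∏ k, (aeval x (F k) / x 0 ^ dF k) ^ a j k)
    (hdiv : ∀ j, M j ∣ ∑ k, a j k * dF k)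
    (hgen : IntermediateField.adjoin ℂ
      (Set.range (fun b : Fin (d + 1) => x b.succ / x 0) ∪ Set.range z) = ⊤)

include hx0 hbas hd hh hF0 hN hL hM hz hdiv hgen

/-- **Finite generation of adjoint rings.** -/
theorem main_fg (hy : NormalModel y) (hρ : ∀ i, 0 < ρ i) (h : ∀ i, PrX F dF x y (Δ i))
    (hCar : ∀ i, ∃ r : ℕ, 0 < r ∧ ∀ Q, Divisorial (d + 1) Q → ∃ a, HasLD y (d + 1) (Δ i) r Q a) :
    ∃ (t : ℕ) (e : Fin t → Fin s → ℕ) (σ : Fin t → (Fin (d + 1) → Derivation ℂ K K) → K),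
      (∀ j, IsSec y (d + 1) ρ Δ (e j) (σ j)) ∧ ∀ m ω, IsSec y (d + 1) ρ Δ m ω →
        ω ∈ Submodule.span ℂ {τ | ∃ c : Fin t → ℕ, ∑ j, c j • e j = m ∧
          τ = fun E => ∏ j, σ j E ^ c j} := by
  classical
  obtain ⟨Φ, rfl, C, rfl, rfl, ϱ, hϱ, h1, h2, hF, hx⟩ :=
    exists_cvx hx0 hbas hd hh hF0 hN hL hM hz hdiv hgen
  have hn : Algebra.trdeg ℂ K = ((d + 1 : ℕ) : Cardinal) := by
    rw [← C.u_bas.cardinalMk_eq_trdeg, Cardinal.mk_fin]
  obtain ⟨D0, hD0⟩ := exists_dual C.u_bas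
  have hD : ∀ i j, D0 i (C.u j) = if i = j then 1 else 0 := by
    intro i j
    have h1 := congrFun (congrFun hD0 i) j
    rw [Matrix.of_apply, Matrix.one_apply] at h1
    exact h1
  choose r' hr' hCar' using hCar
  obtain ⟨r, hr⟩ : ∃ r : ℕ, r = ∏ i, r' i := ⟨_, rfl⟩
  have hrpos : 0 < r := by
    rw [hr]
    exact Finset.prod_pos fun i _ => hr' i
  have hAex : ∀ i, ∃ A : Place ℂ K → ℚ, ∀ Q, Divisorial (d + 1) Q → HasLD y (d + 1) (Δ i) r Q (A Q) := by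
    intro i
    have h3 : ∀ Q : Place ℂ K, ∃ a : ℚ, Divisorial (d + 1) Q → HasLD y (d + 1) (Δ i) r Q a := by
      intro Q
      by_cases hQ : Divisorial (d + 1) Q
      · obtain ⟨a, ha⟩ := hCar' i Q hQ
        obtain ⟨k, hk⟩ : r' i ∣ r := by
          rw [hr]
          exact Finset.dvd_prod_of_mem _ (Finset.mem_univ i)
        rw [hk]
        exact ⟨a, fun _ => ld_mul hy hn C.u_bas hD hQ ha k⟩
      · exact ⟨0, fun h => absurd h hQ⟩
    choose A hA using h3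
    exact ⟨A, hA⟩
  choose A hA using hAex
  have hPr : ∀ i, ∃ C0, C.Pr y (Δ i) (A i) C0 := fun i =>
    pr_of_prx hh C hϱ h1 h2 hF hx (h i) hrpos (hA i)
  choose C0 hPr using hPr
  choose b hb0 hb1 hbg hfin hbQ hbP using fun i =>
    C.exists_b (hPr i) hrpos fun Q hQ => ld_int (hA i Q hQ)
  obtain ⟨S0, hS⟩ := C.exists_tstM (b := b) hfin
  choose T hT using fun s : {v // v ∈ S0} => C.exists_dir (hS.adm s.1 s.2)
  exact C.fg_adj (W := C.LPl) hy hn hρ hb0 hb1 hbg hbP (fun i P hP h3 => (hPr i).a3 P hP h3) hrpos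
    (fun i Q _ hQ => hA i Q hQ) (fun i Q hQL hQ => hbQ i Q hQL hQ) hS hT fun P hP _ => hP

end

end Pool.Agent.J4.H19.LC
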